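import Pool.Agent.LawOsc.Cluster

/-!
MP_6a29fd_al, Q1: there is a finitely generated centre-by-metabelian (in particular solvable)
group with a finite symmetric generating set and a word in three letters whose law probabilities
`p_n` for independent lazy random walks have lower limit `0`, upper limit `1` and every real
number of `[0,1]` as a partial limit.
-/

namespace Pool.Agent.Results.MP_6a29fd_al.SolvableOscillation

open LawOsc

theorem result :
    ∃ (G : Type) (_ : Group G) (S : Finset G) (w : FreeGroup (Fin 3)),
      (∀ s ∈ S, s⁻¹ ∈ S) ∧ Subgroup.closure (S : Set G) = ⊤ ∧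
      derivedSeries G 2 ≤ Subgroup.center G ∧
      Filter.limsup (fun n => lawProb S w n) Filter.atTop = 1 ∧
      Filter.liminf (fun n => lawProb S w n) Filter.atTop = 0 ∧
      ∀ α : ℝ, 0 ≤ α → α ≤ 1 → MapClusterPt α Filter.atTop (fun n => lawProb S w n) :=
  ⟨GK KK, inferInstance, SK KK, ww, SK_symm KK, SK_gen KK, central KK, limsup_eq, liminf_eq,
    cluster⟩

end Pool.Agent.Results.MP_6a29fd_al.SolvableOscillation
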